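import Pool.Agent.BOG.Stmts

/-!
Row LDF of table `bog` (MP_9a4f8a_co): leading forms, the passage from two variables to one.
-/

set_option autoImplicit false

namespace Pool.Agent.BOG.H31

open Polynomial Finset
open Pool.Agent.BOG

universe v

section
variable {K : Type v} [Field K]

/-- the substitution `y ↦ Y`, `x ↦ t Y` from `K[y][x]` to `K[t][Y]` -/
noncomputable def Psi : K[X][X] →+* K[X][X] :=
  eval₂RingHom (mapRingHom (C : K →+* K[X])) (C X * X)

theorem psi_monomial (i : ℕ) (a : K[X]) :
    Psi (monomial i a) = a.map (C : K →+* K[X]) * C (X ^ i) * X ^ i := by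
  simp only [Psi, coe_eval₂RingHom, eval₂_monomial, coe_mapRingHom, mul_pow, C_pow]
  ring

theorem psi_coeff (F : K[X][X]) (d i : ℕ) :
    ((Psi F).coeff d).coeff i = if i ≤ d then (F.coeff i).coeff (d - i) else 0 := by
  induction F using Polynomial.induction_on' with
  | add p q hp hq =>
    rw [map_add, coeff_add, coeff_add, hp, hq, coeff_add, coeff_add]
    split_ifs <;> simp
  | monomial j a =>
    rw [psi_monomial, coeff_mul_X_pow']
    by_cases hjd : j ≤ d
    · rw [if_pos hjd, coeff_mul_C, coeff_map, coeff_C_mul_X_pow, coeff_monomial]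
      by_cases hij : i = j
      · subst hij
        simp [hjd]
      · rw [if_neg hij, if_neg (show ¬ (j = i) from fun h => hij h.symm)]
        simp
    · rw [if_neg hjd, coeff_zero, coeff_monomial]
      by_cases hij : j = i
      · subst hij
        simp [hjd]
      · rw [if_neg hij]
        simp

theorem psi_CC (r : K) : Psi (C (C r)) = C (C r) := by
  simp [Psi]

theorem psi_lin2 (m c : K) : Psi (lin2 m c) = C (X - C m) * X - C (C c) := by
  simp only [Psi, lin2, map_sub, coe_eval₂RingHom, eval₂_X, eval₂_C, coe_mapRingHom]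
  simp only [Polynomial.map_add, Polynomial.map_mul, map_C, map_X]
  ring

theorem mem_TD_iff (d : ℕ) (F : K[X][X]) : F ∈ TD K d ↔ ∀ e, d ≤ e → (Psi F).coeff e = 0 := by
  have h0 : F ∈ TD K d ↔ ∀ i, F.coeff i ∈ degreeLT K (d - i) := Iff.rfl
  rw [h0]
  constructor
  · intro h e he
    ext i
    rw [psi_coeff, coeff_zero]
    split_ifs with hie
    · have h1 := h i
      rw [mem_degreeLT] at h1
      exact (degree_lt_iff_coeff_zero _ _).1 h1 (e - i) (by omega)
    · rfl
  · intro h i
    rw [mem_degreeLT, degree_lt_iff_coeff_zero]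
    intro l hl
    have h1 := h (i + l) (by omega)
    have h2 := psi_coeff F (i + l) i
    rw [h1, coeff_zero, if_pos (by omega)] at h2
    rw [show i + l - i = l by omega] at h2
    exact h2.symm

theorem psi_coeff_mem (F : K[X][X]) (d : ℕ) : (Psi F).coeff d ∈ degreeLT K (d + 1) := by
  rw [mem_degreeLT, degree_lt_iff_coeff_zero]
  intro i hi
  rw [psi_coeff, if_neg (by omega)]

theorem psi_smul (r : K) (F : K[X][X]) : Psi (r • F) = r • Psi F := by
  have h : ∀ G : K[X][X], r • G = C (C r) * G := by
    intro G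
    ext i j
    simp [coeff_C_mul, smul_eq_C_mul]
  rw [h, h, map_mul, psi_CC]

theorem dvd_lead (m c : K) (ν d : ℕ) (F : K[X][X]) (hF : F ∈ TD K (d + 1))
    (hdvd : lin2 m c ^ ν ∣ F) : (X - C m) ^ ν ∣ (Psi F).coeff d := by
  obtain ⟨H, hH⟩ := hdvd
  have hΨ : Psi F = (C (X - C m) * X - C (C c)) ^ ν * Psi H := by
    rw [hH, map_mul, map_pow, psi_lin2]
  have hA1 : (C (X - C m) * X - C (C c) : K[X][X]).leadingCoeff = X - C m := by
    have : (C (X - C m) * X - C (C c) : K[X][X]) = C (X - C m) * X + C (- C c) := by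
      rw [map_neg]; ring
    rw [this]
    exact leadingCoeff_linear (X_sub_C_ne_zero m)
  have hdeg : (Psi F).natDegree ≤ d := by
    rw [natDegree_le_iff_coeff_eq_zero]
    intro e he
    exact (mem_TD_iff (d + 1) F).1 hF e (by omega)
  rcases hdeg.lt_or_eq with h | h
  · rw [coeff_eq_zero_of_natDegree_lt h]
    exact dvd_zero _
  · have h1 : (Psi F).coeff d = (Psi F).leadingCoeff := by rw [← h]; rfl
    rw [h1, hΨ, leadingCoeff_mul, leadingCoeff_pow, hA1]
    exact dvd_mul_right _ _

/-- the leading forms -/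
noncomputable def Lmap (d : ℕ) : (Fin 3 → K[X][X]) →ₗ[K] (Fin 3 → K[X]) where
  toFun θ := fun a => (Psi (θ a)).coeff d
  map_add' x y := by
    funext a
    simp
  map_smul' r x := by
    funext a
    simp only [Pi.smul_apply, psi_smul, coeff_smul, RingHom.id_apply]

theorem lmap_apply (d : ℕ) (θ : Fin 3 → K[X][X]) (a : Fin 3) :
    Lmap d θ a = (Psi (θ a)).coeff d := rfl

theorem dot_lead (m c : K) (d : ℕ) (θ : Fin 3 → K[X][X]) :
    (Psi (dot2 m c θ)).coeff d = dot1 m c (Lmap d θ) := by
  simp only [dot2, dot1, map_sub, map_mul, psi_CC, coeff_sub, coeff_C_mul, lmap_apply]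

theorem lmap_mem {n : ℕ} (m c : Fin n → K) (ν d : ℕ) (θ : Fin 3 → K[X][X])
    (hθ : θ ∈ MM m c ν (d + 1)) : Lmap d θ ∈ EE m c ν (d + 1) := by
  obtain ⟨h1, h2⟩ := hθ
  refine ⟨fun a => psi_coeff_mem _ _, fun P => ?_⟩
  rw [← dot_lead]
  refine dvd_lead _ _ _ _ _ ?_ (h2 P)
  have h : ∀ (r : K) (F : K[X][X]), F ∈ TD K (d + 1) → C (C r) * F ∈ TD K (d + 1) := by
    intro r F hF
    have : C (C r) * F = r • F := by
      ext i j
      simp [coeff_C_mul, smul_eq_C_mul]
    rw [this]
    exact Submodule.smul_mem _ _ hF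
  unfold dot2
  exact Submodule.sub_mem _ (Submodule.sub_mem _ (h1 0) (h _ _ (h1 1))) (h _ _ (h1 2))

end

theorem finrank_step {K : Type v} [Field K] {V W : Type v} [AddCommGroup V] [Module K V]
    [AddCommGroup W] [Module K W] (A B : Submodule K V) (E : Submodule K W) (L : V →ₗ[K] W)
    (hA : ∀ x ∈ A, L x ∈ E) (hker : ∀ x ∈ A, L x = 0 → x ∈ B)
    [Module.Finite K A] [Module.Finite K B] [Module.Finite K E] :
    Module.finrank K A ≤ Module.finrank K B + Module.finrank K E := by
  have h1 := LinearMap.finrank_range_add_finrank_ker (L.domRestrict A)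
  have h2 : Module.finrank K (LinearMap.range (L.domRestrict A)) ≤ Module.finrank K E := by
    apply Submodule.finrank_mono
    rintro y ⟨x, rfl⟩
    exact hA x.1 x.2
  have h3 : Module.finrank K (LinearMap.ker (L.domRestrict A)) ≤ Module.finrank K B := by
    let J : LinearMap.ker (L.domRestrict A) →ₗ[K] B :=
      ((A.subtype).comp (LinearMap.ker (L.domRestrict A)).subtype).codRestrict B
        (fun x => hker x.1.1 x.1.2 (by
          have := x.2
          rw [LinearMap.mem_ker] at this
          exact this))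
    have hJ : Function.Injective J := by
      intro x y hxy
      have h1 : (J x).1 = (J y).1 := congrArg Subtype.val hxy
      exact Subtype.ext (Subtype.ext h1)
    exact LinearMap.finrank_le_finrank_of_injective hJ
  omega

theorem ldf (fdm : FdmStmt.{v}) : LdfStmt.{v} := by
  intro K _ n m c ν
  constructor
  · have h : MM m c ν 0 = ⊥ := by
      rw [eq_bot_iff]
      rintro θ ⟨h1, -⟩
      rw [Submodule.mem_bot]
      funext a
      ext i : 1
      have h2 := h1 a i
      rw [Nat.zero_sub, mem_degreeLT] at h2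
      have h3 : (θ a).coeff i = 0 := by
        rw [← degree_eq_bot]
        simpa using h2
      simpa using h3
    rw [h]
    exact finrank_bot K _
  · intro d
    have f1 := (fdm K n m c ν (d + 1)).1
    have f2 := (fdm K n m c ν (d + 1)).2.1
    have f3 := (fdm K n m c ν d).2.1
    refine finrank_step (MM m c ν (d + 1)) (MM m c ν d) (EE m c ν (d + 1)) (Lmap d)
      (fun θ hθ => lmap_mem m c ν d θ hθ) ?_
    intro θ hθ hk
    refine ⟨fun a => ?_, hθ.2⟩
    rw [mem_TD_iff]
    intro e he
    rcases he.eq_or_lt with h | h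
    · subst h
      exact congrFun hk a
    · exact (mem_TD_iff (d + 1) (θ a)).1 (hθ.1 a) e (by omega)

end Pool.Agent.BOG.H31
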